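import Pool.Agent.Helper61.Tri.Goals

/-!
# Embedding with `s + 1` centres
-/

set_option autoImplicit false

open Finset

namespace Pool.Agent.Helper69.Tri

open Pool.Agent.Helper61.Tri

noncomputable section

open scoped Classical

variable {V : Type} [Fintype V] {G : SimpleGraph V} {m : ℕ} {x w : ℕ → V}

omit [Fintype V] in
theorem card_x (hG : Grid G m x w) : ((range m).image x).card = m := by
  rw [card_image_of_injOn, card_range]
  intro i hi j hj h
  exact hG.injx i (mem_range.1 hi) j (mem_range.1 hj) h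

omit [Fintype V] in
theorem card_w (hG : Grid G m x w) : ((range m).image w).card = m := by
  rw [card_image_of_injOn, card_range]
  intro i hi j hj h
  exact hG.injw i (mem_range.1 hi) j (mem_range.1 hj) h

theorem lnk_x (hG : Grid G m x w) {c : V} (hc : Center G m x w c) {i : ℕ} (hi : i < m) :
    G.Adj (x i) c ∧ m ≤ (cn G (x i) c).card := by
  refine ⟨(hc i hi).1, ?_⟩
  rw [← card_w hG]
  refine card_le_card fun v hv => ?_
  obtain ⟨j, hj, rfl⟩ := mem_image.1 hv
  have hj' := mem_range.1 hj
  simp only [cn, mem_filter, mem_univ, true_and]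
  exact ⟨hG.adj i hi j hj', (hc j hj').2.symm⟩

theorem lnk_w (hG : Grid G m x w) {c : V} (hc : Center G m x w c) {i : ℕ} (hi : i < m) :
    G.Adj (w i) c ∧ m ≤ (cn G (w i) c).card := by
  refine ⟨(hc i hi).2, ?_⟩
  rw [← card_x hG]
  refine card_le_card fun v hv => ?_
  obtain ⟨j, hj, rfl⟩ := mem_image.1 hv
  have hj' := mem_range.1 hj
  simp only [cn, mem_filter, mem_univ, true_and]
  exact ⟨(hG.adj j hj' i hi).symm, (hc j hj').1.symm⟩

/-- Linking two grid vertices through centres. -/
theorem lk (hL : Link) (hG : Grid G m x w) (L : List V) (hn : L.Nodup) (h0 : L ≠ [])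
    (hc : ∀ d ∈ L, Center G m x w d) (S : Finset V) (p q : V) (hpq : p ≠ q)
    (hp : ∀ d ∈ L, G.Adj p d ∧ m ≤ (cn G p d).card)
    (hq : ∀ d ∈ L, G.Adj q d ∧ m ≤ (cn G q d).card) (hpS : p ∉ S) (hqS : q ∉ S)
    (hS : ∀ d ∈ L, d ∉ S) (hm : S.card + 8 * L.length + 10 ≤ m) :
    ∃ S', EP G (2 * L.length) p q S' ∧ Disjoint S S' := by
  refine hL V G L ((range m).image x) S p q m hn h0 hpq (fun h => (hp p h).1.ne rfl)
    (fun h => (hq q h).1.ne rfl) hpS hqS hS ?_ (card_x hG).ge ?_ ?_ hm
  · intro z hz d hd
    obtain ⟨i, hi, rfl⟩ := mem_image.1 hz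
    exact lnk_x hG (hc d hd) (mem_range.1 hi)
  · intro d hd
    exact hp d (List.mem_of_mem_head? hd)
  · intro d hd
    exact hq d (List.mem_of_getLast? hd)

theorem e1 : EPTools → Link → E1 := by
  intro hT hL s hs V _ G m x w hm hG c hc hcc
  have h0 : 0 < m := by omega
  have h1 : 1 < m := by omega
  have hx01 : x 0 ≠ x 1 := fun h => by
    have := hG.injx 0 h0 1 h1 h
    omega
  have hxw : G.Adj (x 0) (w 0) := hG.adj 0 h0 0 h0
  -- the first `s` centres
  set L1 : List V := List.ofFn fun i : Fin s => c i.castSucc with hL1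
  have hL1n : L1.Nodup := List.nodup_ofFn.2 fun i j h => Fin.castSucc_injective _ (hc h)
  have hL1l : L1.length = s := List.length_ofFn
  have hL10 : L1 ≠ [] := by
    intro h
    rw [h, List.length_nil] at hL1l
    omega
  have hL1m : ∀ d ∈ L1, ∃ i : Fin s, c i.castSucc = d := fun d hd => by
    rw [hL1, List.mem_ofFn'] at hd
    exact hd
  have hL1c : ∀ d ∈ L1, Center G m x w d := fun d hd => by
    obtain ⟨i, rfl⟩ := hL1m d hd
    exact hcc _
  set e : V := c (Fin.last s) with he
  have hec : Center G m x w e := hcc _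
  have hL1e : ∀ d ∈ L1, d ≠ e := fun d hd h => by
    obtain ⟨i, rfl⟩ := hL1m d hd
    exact (Fin.castSucc_lt_last i).ne (hc h)
  refine ⟨?_, ?_, ?_⟩
  · -- kind `P`
    obtain ⟨S', h2, -⟩ := lk hL hG (List.ofFn c) (List.nodup_ofFn.2 hc)
      (by
        intro h
        have := congrArg List.length h
        rw [List.length_ofFn, List.length_nil] at this
        omega)
      (fun d hd => by
        rw [List.mem_ofFn'] at hd
        obtain ⟨i, rfl⟩ := hd
        exact hcc _) ∅ (x 0) (x 1) hx01
      (fun d hd => by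
        rw [List.mem_ofFn'] at hd
        obtain ⟨i, rfl⟩ := hd
        exact lnk_x hG (hcc _) h0)
      (fun d hd => by
        rw [List.mem_ofFn'] at hd
        obtain ⟨i, rfl⟩ := hd
        exact lnk_x hG (hcc _) h1) (by simp) (by simp) (by simp)
      (by
        rw [List.length_ofFn, card_empty]
        omega)
    rw [List.length_ofFn] at h2
    exact ⟨x 0, x 1, S', h2⟩
  · -- kind `Ce`
    obtain ⟨S1, h2, h3⟩ := lk hL hG L1 hL1n hL10 hL1c {e} (x 0) (x 1) hx01
      (fun d hd => lnk_x hG (hL1c d hd) h0) (fun d hd => lnk_x hG (hL1c d hd) h1)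
      (by
        rw [mem_singleton]
        exact (hec 0 h0).1.ne)
      (by
        rw [mem_singleton]
        exact (hec 1 h1).1.ne)
      (fun d hd => by
        rw [mem_singleton]
        exact hL1e d hd)
      (by
        rw [hL1l, card_singleton]
        omega)
    rw [hL1l] at h2
    have heS : e ∉ S1 := disjoint_singleton_left.1 h3
    obtain ⟨S2, h4, h5, h6, -, -⟩ := hT.shrink h2
    have hcard : (S2 \ {x 0, x 1}).card ≤ 2 * (2 * s) + 1 :=
      (card_le_card sdiff_subset).trans h6.le
    obtain ⟨S3, h7, h8⟩ := lk hL hG [e] (List.nodup_singleton _) (by simp)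
      (fun d hd => by
        rw [List.mem_singleton] at hd
        rw [hd]
        exact hec) (S2 \ {x 0, x 1}) (x 1) (x 0) hx01.symm
      (fun d hd => by
        rw [List.mem_singleton] at hd
        rw [hd]
        exact lnk_x hG hec h1)
      (fun d hd => by
        rw [List.mem_singleton] at hd
        rw [hd]
        exact lnk_x hG hec h0) (by simp) (by simp)
      (fun d hd => by
        rw [List.mem_singleton] at hd
        rw [hd]
        exact fun h => heS (h4 (mem_sdiff.1 h).1))
      (by
        simp only [List.length_singleton]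
        omega)
    simp only [List.length_singleton] at h7
    have h9 : S2 ∩ S3 ⊆ {x 0, x 1} := by
      intro v hv
      by_contra h
      obtain ⟨h10, h11⟩ := mem_inter.1 hv
      exact (disjoint_left.1 h8) (mem_sdiff.2 ⟨h10, h⟩) h11
    exact hT.close h5 h7 h9 (by omega) (by omega)
  · -- kind `Co`
    obtain ⟨S1, h2, h3⟩ := lk hL hG L1 hL1n hL10 hL1c {e} (x 0) (w 0) hxw.ne
      (fun d hd => lnk_x hG (hL1c d hd) h0) (fun d hd => lnk_w hG (hL1c d hd) h0)
      (by
        rw [mem_singleton]
        exact (hec 0 h0).1.ne)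
      (by
        rw [mem_singleton]
        exact (hec 0 h0).2.ne)
      (fun d hd => by
        rw [mem_singleton]
        exact hL1e d hd)
      (by
        rw [hL1l, card_singleton]
        omega)
    rw [hL1l] at h2
    have heS : e ∉ S1 := disjoint_singleton_left.1 h3
    have h4 : EP G 1 (w 0) (x 0) {w 0, x 0, e} :=
      hT.single hxw.symm (hec 0 h0).2 (hec 0 h0).1
    have h9 : S1 ∩ {w 0, x 0, e} ⊆ {x 0, w 0} := by
      intro v hv
      obtain ⟨h10, h11⟩ := mem_inter.1 hv
      simp only [mem_insert, mem_singleton] at h11 ⊢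
      rcases h11 with h | h | h
      · exact Or.inr h
      · exact Or.inl h
      · exact absurd (h ▸ h10) heS
    exact hT.close h2 h4 h9 (by omega) le_rfl

end

end Pool.Agent.Helper69.Tri
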